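import Mathlib

/-!
The parity in the final statement on cubic twists.
-/

namespace Pool.Agent.MP_e23604_nt

/-- The parity attached to x^3 + y^3 = D: the number of primes l = 2 mod 3 whose exponent in D is
not a multiple of 3, plus one unless D with all factors 27 removed is 1, 3, 6 or 8 modulo 9.
It is 0 for root number +1 and 1 for root number -1. -/
def par3 (D : ℕ) : ℕ :=
  ((D.primeFactors.filter fun l => l % 3 = 2 ∧ ¬ 3 ∣ D.factorization l).card +
    if D / 27 ^ (D.factorization 3 / 3) % 9 ∈ ({1, 3, 6, 8} : Finset ℕ) then 0 else 1) % 2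

end Pool.Agent.MP_e23604_nt
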